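import Pool.Agent.Helper27.AD.Stmts3

/-!
# MP_8312c9_nt (AdelicSections), row NRK: if a power of the norm class is rational then the norm
class is rational (pigeonhole on the `M`-th roots of `r`)
-/

set_option autoImplicit false

open scoped Classical

namespace Pool.Agent.Helper94.AD

open Pool.Agent.Helper14.BSC Pool.Agent.Helper13.ZL Pool.Agent.Helper27.AD

section

variable {k k₁ Ω : Type} [Field k] [Field k₁] [Algebra k₁ k] [Field Ω] [Algebra k Ω]

/-- the class of `x` modulo `n`-th powers has norm `ρ` -/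
def Qn (D : Sec k Ω) (k₁ : Type) [Field k₁] [Algebra k₁ k] (x : LL D) (ρ : k₁) (n : ℕ) : Prop :=
  ∃ c : k, c ≠ 0 ∧ ∃ g : LL D, x = algebraMap k (LL D) c * g ^ n ∧
    ∃ t : k₁, Algebra.norm k₁ c = ρ * t ^ n

theorem Qn_dvd (D : Sec k Ω) (x : LL D) (ρ : k₁) {m n : ℕ} (h : m ∣ n) (hn : Qn D k₁ x ρ n) :
    Qn D k₁ x ρ m := by
  obtain ⟨d, rfl⟩ := h
  obtain ⟨c, hc, g, hx, t, ht⟩ := hn
  refine ⟨c, hc, g ^ d, ?_, t ^ d, ?_⟩
  · rw [hx, ← pow_mul, mul_comm d m]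
  · rw [ht, ← pow_mul, mul_comm d m]

end

theorem st_NRK : ST_NRK := by
  intro k k₁ Ω _ _ _ _ _ _ _ _ D x M hM r hr h
  have key : ∀ n : ℕ, 0 < n → ∃ ρ : k₁, ρ ∈ (Polynomial.nthRoots M r).toFinset ∧ Qn D k₁ x ρ n := by
    intro n hn
    obtain ⟨c, hc, g, hx, t, ht⟩ := h (n * M) (Nat.mul_pos hn hM)
    have hN : Algebra.norm k₁ c ≠ 0 := by
      rw [Ne, Algebra.norm_eq_zero_iff]; exact hc
    have ht0 : t ≠ 0 := by
      rintro rfl
      rw [zero_pow (Nat.mul_pos hn hM).ne', mul_zero] at ht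
      exact hN (eq_zero_of_pow_eq_zero ht)
    have htn : t ^ n ≠ 0 := pow_ne_zero _ ht0
    refine ⟨Algebra.norm k₁ c / t ^ n, ?_, c, hc, g ^ M, ?_, t, ?_⟩
    · rw [Multiset.mem_toFinset, Polynomial.mem_nthRoots hM, div_pow, ht, ← pow_mul,
        mul_div_assoc, div_self, mul_one]
      exact pow_ne_zero _ ht0
    · rw [hx, ← pow_mul, mul_comm M n]
    · rw [div_mul_cancel₀ _ htn]
  choose! ρ hρ hQ using key
  -- pigeonhole along the factorials
  let f : ℕ → (Polynomial.nthRoots M r).toFinset := fun j => ⟨ρ j.factorial, hρ _ j.factorial_pos⟩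
  obtain ⟨ρ₀, hρ₀⟩ := Finite.exists_infinite_fiber f
  have hinf : (f ⁻¹' {ρ₀}).Infinite := Set.infinite_coe_iff.1 hρ₀
  have hroot : (ρ₀ : k₁) ^ M = r := by
    have h1 := ρ₀.2
    rwa [Multiset.mem_toFinset, Polynomial.mem_nthRoots hM] at h1
  refine ⟨ρ₀, ?_, ?_⟩
  · intro h0
    rw [h0, zero_pow hM.ne'] at hroot
    exact hr hroot.symm
  · intro n hn
    obtain ⟨j, hj, hnj⟩ := hinf.exists_gt n
    have h1 : ρ j.factorial = (ρ₀ : k₁) := by
      have h2 : f j = ρ₀ := hj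
      rw [← h2]
    have h3 := hQ j.factorial j.factorial_pos
    rw [h1] at h3
    exact Qn_dvd D x (ρ₀ : k₁) (Nat.dvd_factorial hn hnj.le) h3

end Pool.Agent.Helper94.AD
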