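import Pool.Agent.Helper18.BSC.HEN

/-!
# MP_8312c9_nt (AdelicSections): roots of one-units at a valuation ring stable under a subgroup
-/

set_option autoImplicit false

namespace Pool.Agent.Helper94.AD

open Pool.Agent.Helper14.BSC

/-- one-units of the fixed field of a subgroup `G` preserving `W` have `n`-th roots there, if `n` is a unit of `W` -/
theorem wpl_root {k Ω : Type} [Field k] [Field Ω] [Algebra k Ω] [IsAlgClosed Ω] (D : Sec k Ω)
    (W : ValuationSubring Ω) (G : Subgroup (GG k Ω)) (hinv : ∀ g ∈ G, ∀ x : Ω, D.s g x ∈ W ↔ x ∈ W)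
    (n : ℕ) (hn : 0 < n) (hWn : W.valuation (n : Ω) = 1) (x : Ω) (hfx : ∀ g ∈ G, D.s g x = x)
    (hx : W.valuation (x - 1) < 1) : ∃ y : Ω, y ^ n = x ∧ ∀ g ∈ G, D.s g y = y := by
  classical
  -- a root close to one
  let P : Polynomial Ω := Polynomial.X ^ n - Polynomial.C x
  have hmon : P.Monic := Polynomial.monic_X_pow_sub_C _ hn.ne'
  have hsplit := IsAlgClosed.splits P
  have hprod : P = (P.roots.map fun a => Polynomial.X - Polynomial.C a).prod := by
    have := hsplit.eq_prod_roots
    rwa [hmon.leadingCoeff, map_one, one_mul] at this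
  have heval : 1 - x = (P.roots.map fun a => 1 - a).prod := by
    have h1 : P.eval 1 = 1 - x := by simp [P]
    rw [← h1]
    conv_lhs => rw [hprod]
    rw [Polynomial.eval_multiset_prod, Multiset.map_map]
    simp
  have hx' : W.valuation (1 - x) < 1 := by
    rw [Valuation.map_sub_swap]
    exact hx
  obtain ⟨r, hr, hr1⟩ : ∃ r ∈ P.roots, W.valuation (1 - r) < 1 := by
    by_contra hcon
    push Not at hcon
    have key : ∀ s : Multiset Ω, (∀ a ∈ s, 1 ≤ W.valuation (1 - a)) →
        1 ≤ W.valuation (s.map fun a => 1 - a).prod := by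
      intro s
      induction s using Multiset.induction_on with
      | empty => intro _; simp
      | cons a s ih =>
        intro h
        rw [Multiset.map_cons, Multiset.prod_cons, map_mul]
        exact one_le_mul (h a (Multiset.mem_cons_self a s))
          (ih fun b hb => h b (Multiset.mem_cons_of_mem hb))
    have h1 := key _ hcon
    rw [← heval] at h1
    exact not_lt.2 h1 hx'
  have hrn : r ^ n = x := by
    have h1 := (Polynomial.mem_roots'.1 hr).2
    have h2 : r ^ n - x = 0 := by simpa [P] using h1
    exact sub_eq_zero.1 h2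
  have hr0 : r ≠ 0 := by
    intro h
    rw [h, sub_zero, map_one] at hr1
    exact lt_irrefl _ hr1
  have hvr := hen_near W hr1
  have hfix : ∀ g ∈ G, D.s g r = r := by
    intro g hg
    set u : Ω := D.s g r / r with hu
    have hun : u ^ n = 1 := by
      rw [hu, div_pow, ← map_pow, hrn]
      rw [hfx g hg, ← hrn, div_self (pow_ne_zero _ hr0)]
    have hu1 : W.valuation (1 - u) < 1 := by
      have e1 : r * (1 - u) = (r - 1) + (1 - D.s g r) := by
        rw [hu, mul_sub, mul_div_cancel₀ _ hr0]
        ring
      have e2 : W.valuation (1 - u) = W.valuation (r * (1 - u)) := by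
        rw [map_mul, hvr, one_mul]
      rw [e2, e1]
      refine Valuation.map_add_lt _ ?_ ?_
      · rw [Valuation.map_sub_swap]
        exact hr1
      · have e3 : 1 - D.s g r = (D.s g).toRingEquiv (1 - r) := by
          show 1 - D.s g r = D.s g (1 - r)
          rw [map_sub, map_one]
        rw [e3]
        exact hen_inv W (D.s g).toRingEquiv (fun y => hinv g hg y) _ hr1
    by_contra hne
    have hu_ne : u ≠ 1 := by
      intro h
      exact hne ((div_eq_one_iff_eq hr0).1 (hu ▸ h))
    have h1 : ∑ i ∈ Finset.range n, u ^ i = 0 := by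
      have h2 := geom_sum_mul u n
      rw [hun, sub_self] at h2
      rcases mul_eq_zero.1 h2 with h3 | h3
      · exact h3
      · exact absurd (sub_eq_zero.1 h3) hu_ne
    have hvu := hen_near W hu1
    have h2 : ∀ i : ℕ, W.valuation (1 - u ^ i) < 1 := by
      intro i
      induction i with
      | zero => simp
      | succ i ih =>
        have e : 1 - u ^ (i + 1) = (1 - u ^ i) + u ^ i * (1 - u) := by ring
        rw [e]
        refine Valuation.map_add_lt _ ih ?_
        rw [map_mul, map_pow, hvu, one_pow, one_mul]
        exact hu1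
    have h3 : ∀ m : ℕ, W.valuation ((m : Ω) - ∑ i ∈ Finset.range m, u ^ i) < 1 := by
      intro m
      induction m with
      | zero => simp
      | succ m ih =>
        rw [Finset.sum_range_succ]
        have e : ((m + 1 : ℕ) : Ω) - (∑ i ∈ Finset.range m, u ^ i + u ^ m) =
            ((m : Ω) - ∑ i ∈ Finset.range m, u ^ i) + (1 - u ^ m) := by
          push_cast
          ring
        rw [e]
        exact Valuation.map_add_lt _ ih (h2 m)
    have h4 := h3 n
    rw [h1, sub_zero, hWn] at h4
    exact lt_irrefl _ h4
  exact ⟨r, hrn, hfix⟩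

end Pool.Agent.Helper94.AD
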